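import Pool.Agent.Helper88.Ric.Stmts

set_option autoImplicit false

open scoped ContDiff Manifold Topology MatrixGroups
open Complex

noncomputable section

namespace RicP

theorem gbi_det (γ : SL(2, ℤ)) :
    (γ 0 0 : ℤ) * (γ 1 1 : ℤ) - (γ 0 1 : ℤ) * (γ 1 0 : ℤ) = 1 := by
  have h := γ.det_coe
  rw [Matrix.det_fin_two] at h
  exact h

theorem gbi_detC (γ : SL(2, ℤ)) :
    ((γ 0 0 : ℤ) : ℂ) * ((γ 1 1 : ℤ) : ℂ) - ((γ 0 1 : ℤ) : ℂ) * ((γ 1 0 : ℤ) : ℂ) = 1 := by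
  exact_mod_cast gbi_det γ

/-- general Möbius map -/
theorem gbi_im (p q r s : ℤ) (hd : p * s - q * r = 1) (τ : ℂ) (h : 0 < τ.im) :
    (r : ℂ) * τ + (s : ℂ) ≠ 0 ∧ 0 < (((p : ℂ) * τ + (q : ℂ)) / ((r : ℂ) * τ + (s : ℂ))).im := by
  have h0 : (r : ℂ) * τ + (s : ℂ) ≠ 0 := by
    intro h1
    have h2 := congrArg Complex.im h1
    have h3 := congrArg Complex.re h1
    simp at h2 h3
    have h4 : r = 0 := by
      rcases h2 with h2 | h2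
      · exact h2
      · exact absurd h2 h.ne'
    subst h4
    simp at h3
    subst h3
    simp at hd
  refine ⟨h0, ?_⟩
  have h1 : 0 < Complex.normSq ((r : ℂ) * τ + (s : ℂ)) := Complex.normSq_pos.2 h0
  rw [Complex.div_im]
  simp only [Complex.add_im, Complex.mul_im, Complex.add_re, Complex.mul_re, Complex.intCast_re,
    Complex.intCast_im, zero_mul, add_zero, sub_zero]
  rw [← sub_div]
  apply div_pos _ h1
  have h2 : (p : ℝ) * s - q * r = 1 := by exact_mod_cast hd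
  have h3 : (↑p * τ.im) * (↑r * τ.re + ↑s) - (↑p * τ.re + ↑q) * (↑r * τ.im) =
      ((p : ℝ) * s - q * r) * τ.im := by ring
  rw [h3, h2, one_mul]
  exact h

theorem gbi_comp (p q r s : ℂ) (hd : p * s - q * r = 1) (τ : ℂ) (h : r * τ + s ≠ 0) :
    -r * ((p * τ + q) / (r * τ + s)) + p = 1 / (r * τ + s) ∧
    (s * ((p * τ + q) / (r * τ + s)) + -q) / (-r * ((p * τ + q) / (r * τ + s)) + p) = τ := by
  have h1 : -r * ((p * τ + q) / (r * τ + s)) + p = 1 / (r * τ + s) := by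
    rw [eq_div_iff h]
    field_simp
    linear_combination hd
  refine ⟨h1, ?_⟩
  rw [h1, div_div_eq_mul_div, div_one, add_mul, mul_assoc, div_mul_cancel₀ _ h]
  linear_combination τ * hd

/-- the inverse map -/
def gbi_inv (γ : SL(2, ℤ)) (a b : ℝ) (y : E) : E :=
  ((((γ 1 1 : ℤ) : ℂ) * y.1 + -((γ 0 1 : ℤ) : ℂ)) / (-((γ 1 0 : ℤ) : ℂ) * y.1 + ((γ 0 0 : ℤ) : ℂ)),
    y.2 / (-((γ 1 0 : ℤ) : ℂ) * y.1 + ((γ 0 0 : ℤ) : ℂ)) -
      (a : ℂ) * ((((γ 1 1 : ℤ) : ℂ) * y.1 + -((γ 0 1 : ℤ) : ℂ)) /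
        (-((γ 1 0 : ℤ) : ℂ) * y.1 + ((γ 0 0 : ℤ) : ℂ))) - (b : ℂ))

theorem gbi_im1 (γ : SL(2, ℤ)) (τ : ℂ) (h : 0 < τ.im) :
    ((γ 1 0 : ℤ) : ℂ) * τ + ((γ 1 1 : ℤ) : ℂ) ≠ 0 ∧ 0 < (mob γ τ).im :=
  gbi_im _ _ _ _ (gbi_det γ) τ h

theorem gbi_im2 (γ : SL(2, ℤ)) (τ : ℂ) (h : 0 < τ.im) :
    -((γ 1 0 : ℤ) : ℂ) * τ + ((γ 0 0 : ℤ) : ℂ) ≠ 0 ∧
      0 < ((((γ 1 1 : ℤ) : ℂ) * τ + -((γ 0 1 : ℤ) : ℂ)) /
        (-((γ 1 0 : ℤ) : ℂ) * τ + ((γ 0 0 : ℤ) : ℂ))).im := by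
  have h1 := gbi_im (γ 1 1) (-(γ 0 1)) (-(γ 1 0)) (γ 0 0)
    (by have := gbi_det γ; linear_combination this) τ h
  push_cast at h1
  exact h1

theorem gbi_left (γ : SL(2, ℤ)) (a b : ℝ) (y : E) (h : 0 < y.1.im) :
    gbi_inv γ a b (hGam γ a b y) = y := by
  have h0 := (gbi_im1 γ y.1 h).1
  obtain ⟨h1, h2⟩ := gbi_comp _ _ _ _ (gbi_detC γ) y.1 h0
  unfold gbi_inv hGam mob jj
  simp only
  rw [h2, h1]
  refine Prod.ext rfl ?_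
  simp only
  rw [div_div_eq_mul_div, div_one, div_mul_cancel₀ _ h0]
  ring

theorem gbi_right (γ : SL(2, ℤ)) (a b : ℝ) (y : E) (h : 0 < y.1.im) :
    hGam γ a b (gbi_inv γ a b y) = y := by
  have h0 := (gbi_im2 γ y.1 h).1
  obtain ⟨h1, h2⟩ := gbi_comp ((γ 1 1 : ℤ) : ℂ) (-((γ 0 1 : ℤ) : ℂ)) (-((γ 1 0 : ℤ) : ℂ))
    ((γ 0 0 : ℤ) : ℂ) (by linear_combination gbi_detC γ) y.1 h0
  rw [neg_neg, neg_neg] at h2
  rw [neg_neg] at h1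
  unfold gbi_inv hGam mob jj
  simp only
  rw [h2, h1]
  refine Prod.ext rfl ?_
  simp only
  rw [div_div_eq_mul_div, div_one]
  generalize ((((γ 1 1 : ℤ) : ℂ) * y.1 + -((γ 0 1 : ℤ) : ℂ)) /
        (-((γ 1 0 : ℤ) : ℂ) * y.1 + ((γ 0 0 : ℤ) : ℂ))) = w
  rw [show y.2 / (-((γ 1 0 : ℤ) : ℂ) * y.1 + ((γ 0 0 : ℤ) : ℂ)) - (a : ℂ) * w - (b : ℂ) +
    (a : ℂ) * w + (b : ℂ) = y.2 / (-((γ 1 0 : ℤ) : ℂ) * y.1 + ((γ 0 0 : ℤ) : ℂ)) by ring,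
    div_mul_cancel₀ _ h0]

theorem gbi_open : IsOpen {x : E | 0 < x.1.im} :=
  isOpen_lt continuous_const (Complex.continuous_im.comp continuous_fst)

theorem gbi_cd (γ : SL(2, ℤ)) (a b : ℝ) :
    ContDiffOn ℂ ω (hGam γ a b) {x : E | 0 < x.1.im} := by
  unfold hGam mob jj
  have h1 : ContDiffOn ℂ ω (fun y : E => y.1) {x : E | 0 < x.1.im} := contDiff_fst.contDiffOn
  have h2 : ContDiffOn ℂ ω (fun y : E => y.2) {x : E | 0 < x.1.im} := contDiff_snd.contDiffOn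
  have hd : ∀ x ∈ {x : E | 0 < x.1.im}, ((γ 1 0 : ℤ) : ℂ) * x.1 + ((γ 1 1 : ℤ) : ℂ) ≠ 0 :=
    fun x hx => (gbi_im1 γ x.1 hx).1
  refine ContDiffOn.prodMk ?_ ?_
  · exact ContDiffOn.div ((contDiffOn_const.mul h1).add contDiffOn_const)
      ((contDiffOn_const.mul h1).add contDiffOn_const) hd
  · exact ContDiffOn.div ((h2.add (contDiffOn_const.mul h1)).add contDiffOn_const)
      ((contDiffOn_const.mul h1).add contDiffOn_const) hd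

theorem gbi_cdi (γ : SL(2, ℤ)) (a b : ℝ) :
    ContDiffOn ℂ ω (gbi_inv γ a b) {x : E | 0 < x.1.im} := by
  unfold gbi_inv
  have h1 : ContDiffOn ℂ ω (fun y : E => y.1) {x : E | 0 < x.1.im} := contDiff_fst.contDiffOn
  have h2 : ContDiffOn ℂ ω (fun y : E => y.2) {x : E | 0 < x.1.im} := contDiff_snd.contDiffOn
  have hd : ∀ x ∈ {x : E | 0 < x.1.im}, -((γ 1 0 : ℤ) : ℂ) * x.1 + ((γ 0 0 : ℤ) : ℂ) ≠ 0 :=
    fun x hx => (gbi_im2 γ x.1 hx).1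
  have h3 : ContDiffOn ℂ ω (fun y : E => -((γ 1 0 : ℤ) : ℂ) * y.1 + ((γ 0 0 : ℤ) : ℂ))
      {x : E | 0 < x.1.im} := (contDiffOn_const.mul h1).add contDiffOn_const
  have h4 : ContDiffOn ℂ ω (fun y : E => (((γ 1 1 : ℤ) : ℂ) * y.1 + -((γ 0 1 : ℤ) : ℂ)) /
        (-((γ 1 0 : ℤ) : ℂ) * y.1 + ((γ 0 0 : ℤ) : ℂ))) {x : E | 0 < x.1.im} :=
    ContDiffOn.div ((contDiffOn_const.mul h1).add contDiffOn_const) h3 hd
  exact ContDiffOn.prodMk h4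
    (((ContDiffOn.div h2 h3 hd).sub (contDiffOn_const.mul h4)).sub contDiffOn_const)

/-- the homeomorphism -/
def gbi_h (γ : SL(2, ℤ)) (a b : ℝ) : OpenPartialHomeomorph E E where
  toFun := hGam γ a b
  invFun := gbi_inv γ a b
  source := {x : E | 0 < x.1.im}
  target := {x : E | 0 < x.1.im}
  map_source' := fun x hx => (gbi_im1 γ x.1 hx).2
  map_target' := fun x hx => (gbi_im2 γ x.1 hx).2
  left_inv' := fun x hx => gbi_left γ a b x hx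
  right_inv' := fun x hx => gbi_right γ a b x hx
  open_source := gbi_open
  open_target := gbi_open
  continuousOn_toFun := (gbi_cd γ a b).continuousOn
  continuousOn_invFun := (gbi_cdi γ a b).continuousOn

theorem st_GBI : ST_GBI := fun γ a b =>
  ⟨gbi_h γ a b, rfl, rfl, fun _ => rfl, gbi_cd γ a b, gbi_cdi γ a b⟩

end RicP
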